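import Pool.Agent.helper10.FL.SpecV

/-!
# Project fl: (MP_70a088_an, rational maps), row fl:SLX : the second selection (the shortest return which is not straight).
-/

set_option autoImplicit false

open Complex Metric Set Filter Topology MeasureTheory
open STA

noncomputable section

namespace FL

theorem SLX (hRRB : RRB_stmt) (hFIN : FIN_stmt) (hSTN : STN_stmt) : SLX_stmt := by
  intro Y κ e s c₁ a m hok hN hJ
  obtain ⟨hrr, -, -, hmono, hnpp⟩ := hRRB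
  obtain ⟨hfin, hnz⟩ := hFIN Y κ e s c₁ a m hok hN hJ
  obtain ⟨-, hm, -, -, -⟩ := hnpp Y κ e s c₁ a m hN
  have hmS : ¬ STRT Y a m := (hSTN Y κ e s c₁ a m hok hN).2
  have hr0 : rr 0 = 1 / 24 := by
    unfold rr
    norm_num
  have hrsE : ∀ k : ℕ, rs k = 1 / 24 - ((1 - (1 / 2) ^ k) / 2) * (1 / 96) := by
    intro k
    unfold rs rl
    rw [hr0, pow_zero]
  have hp0 : ∀ k : ℕ, (0 : ℝ) < (1 / 2) ^ k := fun k => by positivity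
  have hp1 : ∀ k : ℕ, ((1 / 2 : ℝ)) ^ k ≤ 1 := fun k => pow_le_one₀ (by norm_num) (by norm_num)
  have hlo : ∀ k : ℕ, 1 / 48 ≤ rs k := by
    intro k
    rw [hrsE]
    have h1 := hp0 k
    linarith
  have hhi : ∀ k : ℕ, rs k ≤ 1 / 24 := by
    intro k
    rw [hrsE]
    have h1 := hp1 k
    linarith
  have hdc : ∀ k : ℕ, rs (k + 1) ≤ rs k := by
    intro k
    rw [hrsE, hrsE, pow_succ]
    have h1 := hp0 k
    linarith
  have hto : ∀ (k m' : ℕ), RT Y (rs k) m' → RT Y (1 / 48) m' := fun k m' h => hmono Y (rs k) (1 / 48) m' (hlo k) h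
  have hfrom : ∀ (k m' : ℕ), RT Y (1 / 24) m' → RT Y (rs k) m' := fun k m' h => hmono Y (1 / 24) (rs k) m' (hhi k) h
  have hmin : ∀ k : ℕ, ∃ n, (¬ STRT Y a n ∧ RT Y (rs k) n) ∧ ∀ m', (¬ STRT Y a m' ∧ RT Y (rs k) m') → ‖T Y n 0‖ ≤ ‖T Y m' 0‖ := by
    intro k
    have h1 : {m' : ℕ | ¬ STRT Y a m' ∧ RT Y (rs k) m'}.Finite := hfin.subset (fun m' hm' => hto k m' hm'.2)
    obtain ⟨n, hn, hn2⟩ := Set.exists_min_image {m' : ℕ | ¬ STRT Y a m' ∧ RT Y (rs k) m'} (fun m' => ‖T Y m' 0‖) h1 ⟨m, hmS, hfrom k m hm⟩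
    exact ⟨n, hn, fun m' hm' => hn2 m' hm'⟩
  choose n hn hmn using hmin
  obtain ⟨N, hNr, hNm⟩ : ∃ N, RT Y (1 / 48) N ∧ ∀ m', RT Y (1 / 48) m' → ‖T Y N 0‖ ≤ ‖T Y m' 0‖ := by
    obtain ⟨N, hN1, hN2⟩ := Set.exists_min_image {m' : ℕ | RT Y (1 / 48) m'} (fun m' => ‖T Y m' 0‖) hfin ⟨m, hto 0 m (hfrom 0 m hm)⟩
    exact ⟨N, hN1, fun m' hm' => hN2 m' hm'⟩
  have hNp : 0 < ‖T Y N 0‖ := norm_pos_iff.2 (hnz N hNr)
  have hex : ∃ k : ℕ, ‖T Y (n k) 0‖ ≤ 4 * ‖T Y (n (k + 1)) 0‖ := by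
    by_contra hno
    have hno2 : ∀ k : ℕ, 4 * ‖T Y (n (k + 1)) 0‖ < ‖T Y (n k) 0‖ := fun k => not_le.1 (fun h => hno ⟨k, h⟩)
    have h1 : ∀ k : ℕ, 4 ^ k * ‖T Y (n k) 0‖ ≤ ‖T Y (n 0) 0‖ := by
      intro k
      induction k with
      | zero => simp
      | succ k ih =>
        refine le_trans ?_ ih
        calc (4 : ℝ) ^ (k + 1) * ‖T Y (n (k + 1)) 0‖ = 4 ^ k * (4 * ‖T Y (n (k + 1)) 0‖) := by ring
          _ ≤ _ := mul_le_mul_of_nonneg_left (hno2 k).le (by positivity)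
    obtain ⟨k, hk⟩ := pow_unbounded_of_one_lt (‖T Y (n 0) 0‖ / ‖T Y N 0‖) (by norm_num : (1 : ℝ) < 4)
    rw [div_lt_iff₀ hNp] at hk
    have h2 := h1 k
    have h3 : ‖T Y N 0‖ ≤ ‖T Y (n k) 0‖ := hNm _ (hto k _ (hn k).2)
    have h4 : (4 : ℝ) ^ k * ‖T Y N 0‖ ≤ 4 ^ k * ‖T Y (n k) 0‖ := mul_le_mul_of_nonneg_left h3 (by positivity)
    linarith
  classical
  set k := Nat.find hex with hk
  have hk1 : ‖T Y (n k) 0‖ ≤ 4 * ‖T Y (n (k + 1)) 0‖ := Nat.find_spec hex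
  have hk2 : ∀ l < k, 4 * ‖T Y (n (l + 1)) 0‖ < ‖T Y (n l) 0‖ := fun l hl => not_le.1 (Nat.find_min hex hl)
  have hdec : ∀ l ≤ k, 4 ^ l * ‖T Y (n l) 0‖ ≤ ‖T Y (n 0) 0‖ := by
    intro l
    induction l with
    | zero => intro _; simp
    | succ l ih =>
      intro hl
      refine le_trans ?_ (ih (Nat.le_of_succ_le hl))
      calc (4 : ℝ) ^ (l + 1) * ‖T Y (n (l + 1)) 0‖ = 4 ^ l * (4 * ‖T Y (n (l + 1)) 0‖) := by ring
        _ ≤ _ := mul_le_mul_of_nonneg_left (hk2 l hl).le (by positivity)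
  refine ⟨k, n k, ⟨(hn k).1, (hn k).2, fun m' h1 h2 => hmn k m' ⟨h1, h2⟩, ?_⟩, ?_⟩
  · intro m' h1 h2
    refine hk1.trans ?_
    exact mul_le_mul_of_nonneg_left (hmn (k + 1) m' ⟨h1, h2⟩) (by norm_num)
  · exact (hdec k le_rfl).trans (hmn 0 m ⟨hmS, hfrom 0 m hm⟩)

end FL
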